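import Mathlib
import Pool.Agent.H69.Rd1

namespace Pool.Agent.Results.MP_37447d_al.ExpGrowth

open Pool.Agent.H69.Rd

/-- The indicator condition implies property RD (1) for every length function whose balls are
finite of size at most `exp (Q r)` for a polynomial `Q`, and (2) for every word length of a
finitely generated group. -/
theorem result :
    (∀ (G : Type) [Group G] (L : G → ℝ), IsLength L →
      (∃ Q : Polynomial ℝ, ∀ r : ℝ, 0 < r → {g | L g ≤ r}.Finite ∧
        (({g | L g ≤ r}.ncard : ℝ)) ≤ Real.exp (Q.eval r)) →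
      Indicator L → RD L) ∧
    (∀ (G : Type) [Group G] (A : Finset G), Subgroup.closure (A : Set G) = ⊤ →
      Indicator (fun g => (wordLength (A : Set G) g : ℝ)) →
      RD (fun g => (wordLength (A : Set G) g : ℝ))) := by
  refine ⟨fun G _ L hL ⟨Q, hQ⟩ H => main L hL.2.1 Q (fun r hr S hS => ?_) H,
    fun G _ A hA H => word A hA H⟩
  refine le_trans ?_ (hQ r hr).2
  rw [← Set.ncard_coe_finset]
  exact Nat.cast_le.2 (Set.ncard_le_ncard (fun s hs => hS s hs) (hQ r hr).1)

end Pool.Agent.Results.MP_37447d_al.ExpGrowth
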